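import Pool.Agent.R249.EL.Fn

/-!
# The joint ergodic Lebesgue differentiation theorem fails for integrable functions

There are a metric space, a Borel probability measure with the Hardy-Littlewood property, a
measure preserving map and an integrable function for which the joint limit of the averages over
balls and over time exists at almost no point.
-/

set_option autoImplicit false

open MeasureTheory Set Filter Topology
open scoped ENNReal NNReal

namespace Pool.Agent.Results.MP_135240_an.NoJointLimit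

/-- The centred maximal function `H^* f(x) = sup_{r > 0} μ(B(x, r))⁻¹ ∫_{B(x, r)} |f| dμ`
(`0` is the value of the quotient when the ball has measure zero). -/
noncomputable def maximal {X : Type} [MetricSpace X] [MeasurableSpace X] (μ : Measure X)
    (f : X → ℝ) (x : X) : ℝ≥0∞ :=
  ⨆ (r : ℝ) (_ : 0 < r), (μ (Metric.ball x r))⁻¹ * ∫⁻ y in Metric.ball x r, ‖f y‖ₑ ∂μ

/-- The Hardy-Littlewood property: the centred maximal operator is of weak type `(1,1)`. -/
def HardyLittlewood {X : Type} [MetricSpace X] [MeasurableSpace X] (μ : Measure X) : Prop :=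
  ∃ C : ℝ≥0, 1 ≤ C ∧ ∀ f : X → ℝ, Integrable f μ → ∀ ε : ℝ, 0 < ε →
    μ {x | ENNReal.ofReal ε ≤ maximal μ f x} ≤ C * (∫⁻ x, ‖f x‖ₑ ∂μ) / ENNReal.ofReal ε

/-- `U_{r,k} f(x) = μ(B(x, r))⁻¹ ∫_{B(x, r)} A_k f dμ`, where
`A_k f = (1/k) ∑_{j < k} f ∘ T^j`. -/
noncomputable def U {X : Type} [MetricSpace X] [MeasurableSpace X] (μ : Measure X) (T : X → X)
    (f : X → ℝ) (r : ℝ) (k : ℕ) (x : X) : ℝ :=
  (μ.real (Metric.ball x r))⁻¹ * ∫ y in Metric.ball x r, birkhoffAverage ℝ T f k y ∂μ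

/-- `lim_{r ↘ 0, k → ∞} U_{r,k} f(x) = L`. -/
def JointLimit {X : Type} [MetricSpace X] [MeasurableSpace X] (μ : Measure X) (T : X → X)
    (f : X → ℝ) (x : X) (L : ℝ) : Prop :=
  ∀ ε : ℝ, 0 < ε → ∃ r₀ : ℝ, 0 < r₀ ∧ ∃ K : ℕ, ∀ (r : ℝ) (k : ℕ), 0 < r → r < r₀ → 1 ≤ k →
    K ≤ k → |U μ T f r k x - L| < ε

/-- The question of the problem: for every system whose measure has the Hardy-Littlewood property
and every integrable `f`, the joint limit is almost everywhere the conditional expectation of `f`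
with respect to the invariant sets. -/
def Question : Prop :=
  ∀ (X : Type) [MetricSpace X] [MeasurableSpace X] [BorelSpace X] (μ : Measure X)
    [IsProbabilityMeasure μ] (T : X → X), MeasurePreserving T μ μ → HardyLittlewood μ →
    ∀ f : X → ℝ, Integrable f μ →
      ∀ᵐ x ∂μ, JointLimit μ T f x ((μ[f|MeasurableSpace.invariants T]) x)

section proof

open Pool.Agent.R249.EL

attribute [local instance] PiNat.metricSpace

lemma hl : HardyLittlewood mu := by
  refine ⟨2, by norm_num, fun f _ ε hε => ?_⟩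
  have hε2 : ENNReal.ofReal (ε / 2) ≠ 0 := by
    rw [Ne, ENNReal.ofReal_eq_zero, not_le]; positivity
  have hsub : {x | ENNReal.ofReal ε ≤ maximal mu f x} ⊆
      {x | ∃ l, ENNReal.ofReal (ε / 2) * mu (PiNat.cylinder x l) <
        ∫⁻ y in PiNat.cylinder x l, ‖f y‖ₑ ∂mu} := by
    intro x hx
    have h1 : ENNReal.ofReal (ε / 2) < maximal mu f x :=
      lt_of_lt_of_le ((ENNReal.ofReal_lt_ofReal_iff hε).2 (by linarith)) hx
    unfold maximal at h1
    simp only [lt_iSup_iff] at h1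
    obtain ⟨r, hr, h2⟩ := h1
    obtain ⟨l, hl⟩ := ball_eq x r hr
    rw [hl] at h2
    refine ⟨l, ?_⟩
    have h0 : mu (PiNat.cylinder x l) ≠ 0 := by
      intro h
      have h3 : ∫⁻ y in PiNat.cylinder x l, ‖f y‖ₑ ∂mu = 0 := by
        rw [Measure.restrict_eq_zero.2 h, lintegral_zero_measure]
      rw [h3, mul_zero] at h2
      exact absurd h2 (not_lt.2 bot_le)
    have hT : mu (PiNat.cylinder x l) ≠ ∞ := measure_ne_top _ _
    rw [mul_comm, ← div_eq_mul_inv] at h2
    exact (ENNReal.lt_div_iff_mul_lt (Or.inl h0) (Or.inl hT)).1 h2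
  have hw := weak mu (fun y => ‖f y‖ₑ) (ENNReal.ofReal (ε / 2))
  have e1 : ENNReal.ofReal ε = 2 * ENNReal.ofReal (ε / 2) := by
    have : ε = 2 * (ε / 2) := by ring
    conv_lhs => rw [this]
    rw [ENNReal.ofReal_mul (by norm_num)]
    simp
  rw [ENNReal.le_div_iff_mul_le (Or.inl (by rw [Ne, ENNReal.ofReal_eq_zero, not_le]; exact hε))
    (Or.inl ENNReal.ofReal_ne_top)]
  calc mu {x | ENNReal.ofReal ε ≤ maximal mu f x} * ENNReal.ofReal ε
      ≤ mu {x | ∃ l, ENNReal.ofReal (ε / 2) * mu (PiNat.cylinder x l) <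
        ∫⁻ y in PiNat.cylinder x l, ‖f y‖ₑ ∂mu} * ENNReal.ofReal ε := by gcongr
    _ = 2 * (ENNReal.ofReal (ε / 2) * mu {x | ∃ l, ENNReal.ofReal (ε / 2) *
        mu (PiNat.cylinder x l) < ∫⁻ y in PiNat.cylinder x l, ‖f y‖ₑ ∂mu}) := by
        rw [e1]; ring
    _ ≤ 2 * ∫⁻ y, ‖f y‖ₑ ∂mu := by gcongr
    _ = _ := by norm_num

lemma no_limit (x : ℕ → ℕ) (hx : ∀ n, psi x n ∈ box n) (L : ℝ) : ¬ JointLimit mu T fR x L := by
  intro h
  obtain ⟨r₀, hr₀, K, hK⟩ := h 1 one_pos
  have h1 : ∀ᶠ l : ℕ in atTop, rad l < r₀ := rad_tendsto.eventually (gt_mem_nhds hr₀)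
  obtain ⟨l₀, hl₀⟩ := eventually_atTop.1 h1
  obtain ⟨m, hm⟩ := exists_nat_gt (2 * (|L| + 1))
  set n := max m (max l₀ K) with hn
  have hn1 : m ≤ n := le_max_left _ _
  have hn2 : l₀ ≤ n := (le_max_left _ _).trans (le_max_right _ _)
  have hn3 : K ≤ n := (le_max_right _ _).trans (le_max_right _ _)
  have hk : n < 2 ^ (n + x (2 * n) + 1) := by
    refine lt_of_lt_of_le (Nat.lt_two_pow_self (n := n)) ?_
    exact Nat.pow_le_pow_right (by norm_num) (by omega)
  have h2 := hK (rad (2 * n + 1)) (2 ^ (n + x (2 * n) + 1)) (rad_pos _) (hl₀ _ (by omega))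
    Nat.one_le_two_pow (by omega)
  have h3 := U_lower x hx n
  have h4 : (n : ℝ) / 2 ≤ U mu T fR (rad (2 * n + 1)) (2 ^ (n + x (2 * n) + 1)) x := h3
  have h5 := abs_lt.1 h2
  have h6 : L ≤ |L| := le_abs_self L
  have h7 : (m : ℝ) ≤ n := by exact_mod_cast hn1
  linarith [h5.2]

end proof

/-- **Theorem.** There are a metric space `X`, a Borel probability measure `μ` on `X` with the
Hardy-Littlewood property, a map `T` preserving `μ` and an integrable `f` such that for almost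
every `x` the joint limit of `U_{r,k} f(x)` as `r ↘ 0`, `k → ∞` does not exist (no real number is
the limit). In particular the answer to the question is negative. -/
theorem result :
    (∃ (X : Type) (_ : MetricSpace X) (_ : MeasurableSpace X) (_ : BorelSpace X) (μ : Measure X)
      (_ : IsProbabilityMeasure μ) (T : X → X) (f : X → ℝ),
      MeasurePreserving T μ μ ∧ HardyLittlewood μ ∧ Integrable f μ ∧
        ∀ᵐ x ∂μ, ∀ L : ℝ, ¬ JointLimit μ T f x L) ∧ ¬ Question := by
  have hB : @BorelSpace (ℕ → ℕ)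
      (PiNat.metricSpace (E := fun _ => ℕ)).toPseudoMetricSpace.toUniformSpace.toTopologicalSpace
      MeasurableSpace.pi := (inferInstance : BorelSpace (ℕ → ℕ))
  have key : ∀ᵐ x ∂Pool.Agent.R249.EL.mu, ∀ L : ℝ,
      ¬ @JointLimit (ℕ → ℕ) (PiNat.metricSpace (E := fun _ => ℕ)) MeasurableSpace.pi
        Pool.Agent.R249.EL.mu Pool.Agent.R249.EL.T Pool.Agent.R249.EL.fR x L := by
    filter_upwards [Pool.Agent.R249.EL.ae_box] with x hx L
    exact no_limit x hx L
  refine ⟨⟨ℕ → ℕ, PiNat.metricSpace (E := fun _ => ℕ), MeasurableSpace.pi, hB,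
    Pool.Agent.R249.EL.mu, inferInstance, Pool.Agent.R249.EL.T, Pool.Agent.R249.EL.fR,
    Pool.Agent.R249.EL.mp_T, hl, Pool.Agent.R249.EL.integrable_fR, key⟩, ?_⟩
  intro hQ
  have h1 := @hQ (ℕ → ℕ) (PiNat.metricSpace (E := fun _ => ℕ)) MeasurableSpace.pi hB
    Pool.Agent.R249.EL.mu inferInstance Pool.Agent.R249.EL.T Pool.Agent.R249.EL.mp_T hl
    Pool.Agent.R249.EL.fR Pool.Agent.R249.EL.integrable_fR
  obtain ⟨x, hx1, hx2⟩ := (h1.and key).exists
  exact hx2 _ hx1

end Pool.Agent.Results.MP_135240_an.NoJointLimit
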